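import Pool.Agent.helper19.SP.Geo

/-!
# Module H1: registers as base `p` digits of one number
-/

set_option autoImplicit false

namespace Pool.Agent.helper12.SP

/-- the number `s` represents the contents of the three banks -/
def Rep (N p κ q s : ℕ) (S : ℕ → ℕ → ℕ → ZMod p) : Prop :=
  s < p ^ (6 * κ * q) ∧ ∀ k < 3, ∀ i < 2 * κ, ∀ a < q,
    ((dg N p s (ix κ q k i a) : ℕ) : ZMod p) = S k i a

section up

variable {N p R s r v : ℕ}

private lemma pw_eq (hp : 1 ≤ p) (hN : p ^ R ≤ N) (hr : r ≤ R) : pw N p r = p ^ r :=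
  min_eq_left (le_trans (Nat.pow_le_pow_right hp hr) hN)

private lemma up_eq (hp : 2 ≤ p) (hN : p ^ R ≤ N) (hr : r < R) :
    up N p s r v = s / p ^ (r + 1) * p ^ (r + 1) + (s / p ^ r % p + v) % p * p ^ r + s % p ^ r := by
  have h1 : pw N p r = p ^ r := pw_eq (by omega) hN hr.le
  rw [up, dg, h1]
  have h2 : s = s / p ^ (r + 1) * p ^ (r + 1) + s / p ^ r % p * p ^ r + s % p ^ r := by
    have e1 := Nat.div_add_mod s (p ^ r)
    have e2 := Nat.div_add_mod (s / p ^ r) p
    rw [Nat.div_div_eq_div_mul, ← pow_succ] at e2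
    calc s = p ^ r * (s / p ^ r) + s % p ^ r := e1.symm
      _ = p ^ r * (p * (s / p ^ (r + 1)) + s / p ^ r % p) + s % p ^ r := by rw [e2]
      _ = _ := by rw [pow_succ]; ring
  have h3 : s - s / p ^ r % p * p ^ r = s / p ^ (r + 1) * p ^ (r + 1) + s % p ^ r := by
    generalize s / p ^ (r + 1) * p ^ (r + 1) = A at h2 ⊢
    generalize s / p ^ r % p * p ^ r = B at h2 ⊢
    generalize s % p ^ r = C at h2 ⊢
    omega
  rw [h3]
  ring

private lemma up_div (hp : 2 ≤ p) (hN : p ^ R ≤ N) (hr : r < R) :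
    up N p s r v / p ^ (r + 1) = s / p ^ (r + 1) := by
  rw [up_eq hp hN hr, add_assoc]
  have h1 : (s / p ^ r % p + v) % p * p ^ r + s % p ^ r < p ^ (r + 1) := by
    have e1 : (s / p ^ r % p + v) % p < p := Nat.mod_lt _ (by omega)
    have e2 : s % p ^ r < p ^ r := Nat.mod_lt _ (by positivity)
    have e3 : (s / p ^ r % p + v) % p * p ^ r + p ^ r ≤ p ^ (r + 1) := by
      rw [pow_succ, mul_comm (p ^ r) p]
      calc (s / p ^ r % p + v) % p * p ^ r + p ^ r = ((s / p ^ r % p + v) % p + 1) * p ^ r := by ring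
        _ ≤ p * p ^ r := Nat.mul_le_mul_right _ e1
    omega
  rw [add_comm, Nat.add_mul_div_right _ _ (by positivity), Nat.div_eq_of_lt h1, zero_add]

private lemma up_mod (hp : 2 ≤ p) (hN : p ^ R ≤ N) (hr : r < R) :
    up N p s r v % p ^ r = s % p ^ r := by
  rw [up_eq hp hN hr]
  have h1 : s / p ^ (r + 1) * p ^ (r + 1) + (s / p ^ r % p + v) % p * p ^ r + s % p ^ r =
      s % p ^ r + (s / p ^ (r + 1) * p + (s / p ^ r % p + v) % p) * p ^ r := by
    rw [pow_succ]; ring
  rw [h1, Nat.add_mul_mod_self_right, Nat.mod_mod]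

lemma up_lt (hp : 2 ≤ p) (hN : p ^ R ≤ N) (hr : r < R) (hs : s < p ^ R) :
    up N p s r v < p ^ R := by
  have h1 := up_div (s := s) (v := v) hp hN hr
  have h2 : s / p ^ (r + 1) < p ^ (R - (r + 1)) := by
    rw [Nat.div_lt_iff_lt_mul (by positivity), ← pow_add, Nat.sub_add_cancel hr]
    exact hs
  rw [← h1, Nat.div_lt_iff_lt_mul (by positivity), ← pow_add, Nat.sub_add_cancel hr] at h2
  exact h2

lemma dg_up_self (hp : 2 ≤ p) (hN : p ^ R ≤ N) (hr : r < R) :
    dg N p (up N p s r v) r = (dg N p s r + v) % p := by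
  rw [up_eq hp hN hr, dg, dg, pw_eq (by omega) hN hr.le]
  have h1 : s / p ^ (r + 1) * p ^ (r + 1) + (s / p ^ r % p + v) % p * p ^ r + s % p ^ r =
      s % p ^ r + (s / p ^ (r + 1) * p + (s / p ^ r % p + v) % p) * p ^ r := by
    rw [pow_succ]; ring
  rw [h1, Nat.add_mul_div_right _ _ (by positivity),
    Nat.div_eq_of_lt (Nat.mod_lt _ (by positivity)), zero_add, add_comm,
    Nat.add_mul_mod_self_right, Nat.mod_mod]

lemma dg_up_ne (hp : 2 ≤ p) (hN : p ^ R ≤ N) (hr : r < R) {r' : ℕ} (hr' : r' < R) (hne : r' ≠ r) :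
    dg N p (up N p s r v) r' = dg N p s r' := by
  rw [dg, dg, pw_eq (by omega) hN hr'.le]
  rcases Nat.lt_or_gt_of_ne hne with h | h
  · -- lower digits
    have key : ∀ x : ℕ, x / p ^ r' % p = x % p ^ r % p ^ (r' + 1) / p ^ r' := by
      intro x
      rw [Nat.mod_mod_of_dvd _ (pow_dvd_pow p h), pow_succ, Nat.mod_mul_right_div_self]
    rw [key, key s, up_mod hp hN hr]
  · -- upper digits
    obtain ⟨e, rfl⟩ : ∃ e, r' = r + 1 + e := ⟨r' - (r + 1), by omega⟩
    rw [pow_add, ← Nat.div_div_eq_div_mul, ← Nat.div_div_eq_div_mul, up_div hp hN hr]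

end up

section ix

variable {κ q : ℕ}

lemma ix_lt {k i a : ℕ} (hk : k < 3) (hi : i < 2 * κ) (ha : a < q) : ix κ q k i a < 6 * κ * q := by
  rw [ix]
  have h1 : k * (2 * κ) + i + 1 ≤ 6 * κ := by
    have : k * (2 * κ) ≤ 2 * (2 * κ) := Nat.mul_le_mul_right _ (by omega)
    omega
  have h2 := Nat.mul_le_mul_right q h1
  rw [add_mul, one_mul] at h2
  omega

lemma ix_inj {k i a k' i' a' : ℕ} (hi : i < 2 * κ) (ha : a < q) (hi' : i' < 2 * κ)
    (ha' : a' < q) (h : ix κ q k i a = ix κ q k' i' a') : k = k' ∧ i = i' ∧ a = a' := by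
  rw [ix, ix] at h
  have h1 : a = a' := by
    have := congrArg (· % q) h
    simpa [Nat.mod_eq_of_lt ha, Nat.mod_eq_of_lt ha'] using this
  subst h1
  have h2 : k * (2 * κ) + i = k' * (2 * κ) + i' :=
    Nat.eq_of_mul_eq_mul_right (by omega : 0 < q) (by omega)
  have h3 : i = i' := by
    have := congrArg (· % (2 * κ)) h2
    simpa [Nat.mod_eq_of_lt hi, Nat.mod_eq_of_lt hi'] using this
  subst h3
  exact ⟨Nat.eq_of_mul_eq_mul_right (by omega : 0 < 2 * κ) (by omega), rfl, rfl⟩

end ix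

section rep

variable {N p κ q s : ℕ} {S S' : ℕ → ℕ → ℕ → ZMod p}

lemma Rep.congr (h : Rep N p κ q s S)
    (hS : ∀ k < 3, ∀ i < 2 * κ, ∀ a < q, S k i a = S' k i a) : Rep N p κ q s S' :=
  ⟨h.1, fun k hk i hi a ha => (h.2 k hk i hi a ha).trans (hS k hk i hi a ha)⟩

lemma Rep.up (h : Rep N p κ q s S) (hp : 2 ≤ p) (hN : p ^ (6 * κ * q) ≤ N) {k0 i0 a0 : ℕ}
    (hk0 : k0 < 3) (hi0 : i0 < 2 * κ) (ha0 : a0 < q) (v : ℕ) :
    Rep N p κ q (up N p s (ix κ q k0 i0 a0) v)
      (fun k i a => if k = k0 ∧ i = i0 ∧ a = a0 then S k i a + v else S k i a) := by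
  refine ⟨up_lt hp hN (ix_lt hk0 hi0 ha0) h.1, fun k hk i hi a ha => ?_⟩
  by_cases hc : k = k0 ∧ i = i0 ∧ a = a0
  · obtain ⟨rfl, rfl, rfl⟩ := hc
    simp only [and_self, if_true]
    rw [dg_up_self hp hN (ix_lt hk hi ha), ZMod.natCast_mod, Nat.cast_add,
      h.2 k hk i hi a ha]
  · simp only [hc, if_false]
    rw [dg_up_ne hp hN (ix_lt hk0 hi0 ha0) (ix_lt hk hi ha) ?_, h.2 k hk i hi a ha]
    intro he
    exact hc (ix_inj hi ha hi0 ha0 he)

end rep

lemma pm_lt {p m : ℕ} (hp : 2 ≤ p) (e : ℕ) : pm p m e < p := by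
  cases e with
  | zero => exact Nat.mod_lt _ (by omega)
  | succ e => exact Nat.mod_lt _ (by omega)

lemma pm_cast {p m : ℕ} (e : ℕ) : ((pm p m e : ℕ) : ZMod p) = (m : ZMod p) ^ e := by
  induction e with
  | zero =>
    show ((1 % p : ℕ) : ZMod p) = _
    rw [ZMod.natCast_mod, pow_zero, Nat.cast_one]
  | succ e ih =>
    show ((pm p m e * m % p : ℕ) : ZMod p) = _
    rw [ZMod.natCast_mod, Nat.cast_mul, ih, pow_succ]

lemma dg_lt' {N a s r : ℕ} (ha : 0 < a) : dg N a s r < a := Nat.mod_lt _ ha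

lemma wt_cast {N p κ q s o z : ℕ} {S : ℕ → ℕ → ℕ → ZMod p} (hq : 0 < q)
    (hs : Rep N p κ q s S) :
    ((wt N p κ q s o z : ℕ) : ZMod p) = ∏ j ∈ Finset.range (2 * (2 * κ)),
      (if j < 2 * κ then S ((o + 2) % 3) (j % (2 * κ)) (dg N q z j)
        else S ((o + 1) % 3) (j % (2 * κ)) (dg N q z j)) := by
  have key : ∀ n ≤ 2 * (2 * κ), ((Nat.rec (motive := fun _ => ℕ) (1 % p) (fun j ih => ih * dg N p s
      (ix κ q (if j < 2 * κ then (o + 2) % 3 else (o + 1) % 3) (j % (2 * κ)) (dg N q z j)) % p) n :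
      ℕ) : ZMod p) = ∏ j ∈ Finset.range n,
      (if j < 2 * κ then S ((o + 2) % 3) (j % (2 * κ)) (dg N q z j)
        else S ((o + 1) % 3) (j % (2 * κ)) (dg N q z j)) := by
    intro n
    induction n with
    | zero =>
      intro _
      rw [Finset.prod_range_zero]
      show ((1 % p : ℕ) : ZMod p) = 1
      rw [ZMod.natCast_mod, Nat.cast_one]
    | succ n ih =>
      intro hn
      rw [Finset.prod_range_succ, ← ih (by omega)]
      show ((_ * dg N p s _ % p : ℕ) : ZMod p) = _
      rw [ZMod.natCast_mod, Nat.cast_mul]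
      congr 1
      have hκ : 0 < 2 * κ := by omega
      split_ifs with hj
      · exact hs.2 _ (Nat.mod_lt _ (by norm_num)) _ (Nat.mod_lt _ hκ) _ (dg_lt' hq)
      · exact hs.2 _ (Nat.mod_lt _ (by norm_num)) _ (Nat.mod_lt _ hκ) _ (dg_lt' hq)
  exact key _ le_rfl

/-- the contribution of one array -/
private def W (N p κ q m z : ℕ) (y1 y2 : ℕ → ℕ → ZMod p) : ZMod p :=
  - (m : ZMod p) ^ (p - 1 - 2 * (2 * κ)) * ∏ j ∈ Finset.range (2 * (2 * κ)),
        (if j < 2 * κ then y2 (j % (2 * κ)) (dg N q z j) else y1 (j % (2 * κ)) (dg N q z j))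

lemma rep_lz {N p κ q M o m z s : ℕ} {S : ℕ → ℕ → ℕ → ZMod p} (hp : 2 ≤ p)
    (hq : 0 < q) (hN1 : p ^ (6 * κ * q) ≤ N)
    (ho : o < 3) (hs : Rep N p κ q s S) :
    Rep N p κ q (lz N p κ q M o m z s)
      (Function.update S o (S o + fun i a => if i < 2 * κ ∧
        dg N q (gi N q M (2 * (2 * κ)) z κ) (2 * κ + i) = a then
          W N p κ q m z (S ((o + 1) % 3)) (S ((o + 2) % 3)) else 0)) := by
  have key : ∀ n ≤ 2 * κ, Rep N p κ q (Nat.rec (motive := fun _ => ℕ) s (fun i ih => up N p ih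
      (ix κ q o i (dg N q (gi N q M (2 * (2 * κ)) z κ) (2 * κ + i)))
      ((p - pm p m (p - 1 - 2 * (2 * κ))) * wt N p κ q ih o z % p)) n)
      (Function.update S o (S o + fun i a => if i < n ∧
        dg N q (gi N q M (2 * (2 * κ)) z κ) (2 * κ + i) = a then
          W N p κ q m z (S ((o + 1) % 3)) (S ((o + 2) % 3)) else 0)) := by
    intro n
    induction n with
    | zero =>
      intro _
      refine hs.congr fun k _ i _ a _ => ?_
      by_cases hk : k = o
      · subst hk
        simp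
      · rw [Function.update_of_ne hk]
    | succ n ih =>
      intro hn
      have hr := ih (by omega)
      have hu := hr.up hp hN1 ho (show n < 2 * κ by omega)
        (dg_lt' (N := N) (s := gi N q M (2 * (2 * κ)) z κ) (r := 2 * κ + n) hq)
        ((p - pm p m (p - 1 - 2 * (2 * κ))) * wt N p κ q (Nat.rec (motive := fun _ => ℕ) s
          (fun i ih => up N p ih (ix κ q o i (dg N q (gi N q M (2 * (2 * κ)) z κ) (2 * κ + i)))
          ((p - pm p m (p - 1 - 2 * (2 * κ))) * wt N p κ q ih o z % p)) n) o z % p)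
      refine Rep.congr hu fun k _ i _ a _ => ?_
      have hval : (((p - pm p m (p - 1 - 2 * (2 * κ))) * wt N p κ q (Nat.rec (motive := fun _ => ℕ) s
          (fun i ih => up N p ih (ix κ q o i (dg N q (gi N q M (2 * (2 * κ)) z κ) (2 * κ + i)))
          ((p - pm p m (p - 1 - 2 * (2 * κ))) * wt N p κ q ih o z % p)) n) o z % p : ℕ) : ZMod p) =
          W N p κ q m z (S ((o + 1) % 3)) (S ((o + 2) % 3)) := by
        rw [ZMod.natCast_mod, Nat.cast_mul, Nat.cast_sub (pm_lt hp _).le, pm_cast, ZMod.natCast_self,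
          zero_sub, wt_cast hq hr, W]
        have h1 : (o + 1) % 3 ≠ o := by omega
        have h2 : (o + 2) % 3 ≠ o := by omega
        rw [Function.update_of_ne h1, Function.update_of_ne h2]
      rw [hval]
      by_cases hk : k = o
      · subst hk
        simp only [Function.update_self, Pi.add_apply]
        by_cases hi : i = n
        · subst hi
          by_cases ha : a = dg N q (gi N q M (2 * (2 * κ)) z κ) (2 * κ + i)
          · subst ha
            simp
          · rw [if_neg (by tauto), if_neg (by omega), if_neg (by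
              rintro ⟨_, h⟩
              exact ha h.symm)]
        · rw [if_neg (by tauto)]
          simp only [show (i < n + 1) ↔ (i < n) by omega]
      · rw [if_neg (by tauto), Function.update_of_ne hk, Function.update_of_ne hk]
  exact key _ le_rfl

/-- H1 -/
theorem rep_lo {N p κ q M o m s : ℕ} {S : ℕ → ℕ → ℕ → ZMod p} (hp : 2 ≤ p) (hκ : 1 ≤ κ)
    (hq : 5 ≤ q) (h1 : 4 * κ + 2 ≤ p) (hN1 : p ^ (6 * κ * q) ≤ N) (hN2 : q ^ (4 * κ) ≤ N)
    (ho : o < 3) (hs : Rep N p κ q s S) :
    Rep N p κ q (lo N p κ q M o m s)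
      (Function.update S o (S o + floc N p κ q M m (S ((o + 1) % 3)) (S ((o + 2) % 3)))) := by
  have hq0 : 0 < q := by omega
  have e1 : (o + 1) % 3 ≠ o := by omega
  have e2 : (o + 2) % 3 ≠ o := by omega
  have key : ∀ n, Rep N p κ q (Nat.rec (motive := fun _ => ℕ) s
      (fun z ih => lz N p κ q M o m z ih) n)
      (Function.update S o (S o + fun i a => ∑ z ∈ Finset.range n, if i < 2 * κ ∧
        dg N q (gi N q M (2 * (2 * κ)) z κ) (2 * κ + i) = a then
          W N p κ q m z (S ((o + 1) % 3)) (S ((o + 2) % 3)) else 0)) := by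
    intro n
    induction n with
    | zero =>
      refine hs.congr fun k _ i _ a _ => ?_
      by_cases hk : k = o
      · subst hk
        simp
      · rw [Function.update_of_ne hk]
    | succ n ih =>
      have hr := rep_lz (M := M) (m := m) (z := n) hp hq0 hN1 ho ih
      refine Rep.congr hr fun k _ i _ a _ => ?_
      by_cases hk : k = o
      · subst hk
        simp only [Function.update_self, Pi.add_apply, Finset.sum_range_succ,
          Function.update_of_ne e1, Function.update_of_ne e2, add_assoc]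
      · rw [Function.update_of_ne hk, Function.update_of_ne hk, Function.update_of_ne hk]
  have hpw : pw N q (2 * (2 * κ)) = q ^ (2 * (2 * κ)) := by
    apply min_eq_left
    rwa [show 2 * (2 * κ) = 4 * κ by ring]
  have hk := key (pw N q (2 * (2 * κ)))
  refine Rep.congr hk fun k _ i hi a _ => ?_
  by_cases hk : k = o
  · subst hk
    simp only [Function.update_self, Pi.add_apply, floc, hi, if_true, true_and, hpw, W]
  · rw [Function.update_of_ne hk, Function.update_of_ne hk]

lemma lv_lt {N κ X Z c i q : ℕ} (hq : 5 ≤ q) : lv N κ X Z c i < q := by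
  rw [lv]
  have h1 := dg_lt' (N := N) (a := 2) (s := X) (r := (κ - c) * (2 * κ) + i) (by norm_num)
  have h2 := dg_lt' (N := N) (a := 2) (s := Z) (r := (c - κ) * (2 * κ) - i - 1) (by norm_num)
  split_ifs <;> omega

/-- H1 -/
theorem rep_lf {N p κ q X Z c o s : ℕ} {S : ℕ → ℕ → ℕ → ZMod p} (hp : 2 ≤ p) (hκ : 1 ≤ κ)
    (hq : 5 ≤ q) (hN1 : p ^ (6 * κ * q) ≤ N) (ho : o < 3) (hs : Rep N p κ q s S) :
    Rep N p κ q (lf N p κ q X Z c o s)
      (Function.update S o (S o + fun i a => if i < 2 * κ ∧ lv N κ X Z c i = a then 1 else 0)) := by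
  have key : ∀ n ≤ 2 * κ, Rep N p κ q (Nat.rec (motive := fun _ => ℕ) s
      (fun i ih => up N p ih (ix κ q o i (lv N κ X Z c i)) 1) n)
      (Function.update S o (S o + fun i a => if i < n ∧ lv N κ X Z c i = a then 1 else 0)) := by
    intro n
    induction n with
    | zero =>
      intro _
      refine hs.congr fun k _ i _ a _ => ?_
      by_cases hk : k = o
      · subst hk
        simp
      · rw [Function.update_of_ne hk]
    | succ n ih =>
      intro hn
      have hu := (ih (by omega)).up hp hN1 ho (show n < 2 * κ by omega)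
        (lv_lt (N := N) (κ := κ) (X := X) (Z := Z) (c := c) (i := n) hq) 1
      refine Rep.congr hu fun k _ i _ a _ => ?_
      by_cases hk : k = o
      · subst hk
        simp only [Function.update_self, Pi.add_apply]
        by_cases hi : i = n
        · subst hi
          by_cases ha : a = lv N κ X Z c i
          · subst ha
            simp
          · rw [if_neg (by tauto), if_neg (by omega), if_neg (by
              rintro ⟨_, h⟩
              exact ha h.symm)]
        · rw [if_neg (by tauto)]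
          simp only [show (i < n + 1) ↔ (i < n) by omega]
      · rw [if_neg (by tauto), Function.update_of_ne hk, Function.update_of_ne hk]
  exact key _ le_rfl

end Pool.Agent.helper12.SP
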